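import Pool.Agent.Helper79.TL.Grp2

/-!
# TL-G9: the central involution is a product of commutators
-/

set_option autoImplicit false

namespace Pool.Agent.Helper79.TL.G9

open Pool.Agent.Helper79.TL

set_option maxRecDepth 100000 in
lemma code_eq : mulN (mulN (mulN (mulN (cr 1) cw) (cr 1)) cw)
    (mulN (mulN (mulN (cr 11) ct) (cr 11)) cti) = cz := by
  decide +kernel

/-- `z = [r 1, w] * [r 11, t]` -/
lemma z_eq : D0.z = (D0.r 1 * D0.w * (D0.r 1)⁻¹ * D0.w⁻¹) *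
    (D0.r 11 * D0.t * (D0.r 11)⁻¹ * D0.t⁻¹) := by
  apply U_ext
  have h1 : ((D0.z : U) : Matrix (Fin 6) (Fin 6) (ZMod 3)) = toM cz := rfl
  rw [h1, ← code_eq]
  simp only [toM_mulN]
  rfl

theorem z_mem_commutator : DG.z ∈ commutator ↥GG := by
  have h : DG.z = (DG.r 1 * DG.w * (DG.r 1)⁻¹ * DG.w⁻¹) *
      (DG.r 11 * DG.t * (DG.r 11)⁻¹ * DG.t⁻¹) := Subtype.ext z_eq
  rw [h]
  exact Subgroup.mul_mem _
    (Subgroup.commutator_mem_commutator (Subgroup.mem_top (DG.r 1)) (Subgroup.mem_top DG.w))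
    (Subgroup.commutator_mem_commutator (Subgroup.mem_top (DG.r 11)) (Subgroup.mem_top DG.t))

end Pool.Agent.Helper79.TL.G9
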